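import Pool.Agent.W192.CY.Stneb
import Pool.Agent.W612.CY.COEF

set_option autoImplicit false

open Complex Filter Topology Set UpperHalfPlane MatrixGroups CongruenceSubgroup

namespace Pool.Agent.W804.CY

open Pool.Agent.W192.CY

lemma coeff_zeroC {N : ℕ} {k : ℤ} (f : CuspForm (Gamma1 N : Subgroup (GL (Fin 2) ℝ)) k) :
    (qExpansion 1 f).coeff 0 = 0 := by
  have h1 : (1 : ℝ) ∈ (Gamma1 N : Subgroup (GL (Fin 2) ℝ)).strictPeriods := by simp
  exact CuspFormClass.qExpansion_coeff_zero (Γ := (Gamma1 N : Subgroup (GL (Fin 2) ℝ)))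
    (k := k) f one_pos h1

/-- The values of the inverse at the prime powers. -/
noncomputable def g (e : ℕ → ℂ) (c : ℕ → ℂ) (p k : ℕ) : ℂ :=
  if k = 0 then 1 else if k = 1 then -c p else if k = 2 then e p * p else 0

/-- The inverse. -/
noncomputable def mm (e : ℕ → ℂ) (c : ℕ → ℂ) (n : ℕ) : ℂ :=
  if n = 0 then 0 else n.factorization.prod (g e c)

lemma mm_one (e : ℕ → ℂ) (c : ℕ → ℂ) : mm e c 1 = 1 := by simp [mm]

lemma mm_pow (e : ℕ → ℂ) (c : ℕ → ℂ) {p k : ℕ} (hp : p.Prime) : mm e c (p ^ k) = g e c p k := by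
  rw [mm, if_neg (pow_ne_zero k hp.ne_zero), hp.factorization_pow,
    Finsupp.prod_single_index (by simp [g])]

lemma mm_mul (e : ℕ → ℂ) (c : ℕ → ℂ) {a b : ℕ} (h : Nat.Coprime a b) :
    mm e c (a * b) = mm e c a * mm e c b := by
  by_cases ha : a = 0
  · subst ha
    have hb : b = 1 := by simpa using h
    subst hb
    simp [mm]
  by_cases hb : b = 0
  · subst hb
    have ha : a = 1 := by simpa using h
    subst ha
    simp [mm]
  rw [mm, mm, mm, if_neg (mul_ne_zero ha hb), if_neg ha, if_neg hb, Nat.factorization_mul ha hb]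
  apply Finsupp.prod_add_index_of_disjoint
  rw [Nat.support_factorization, Nat.support_factorization]
  exact h.disjoint_primeFactors

/-- The general statement, for a multiplicative sequence. -/
theorem gen (c e : ℕ → ℂ) (c0 : c 0 = 0) (c1 : c 1 = 1)
    (cm : ∀ a b : ℕ, Nat.Coprime a b → c (a * b) = c a * c b)
    (cp : ∀ p j : ℕ, p.Prime → c (p ^ (j + 2)) = c p * c (p ^ (j + 1)) - e p * p * c (p ^ j))
    (hcb : ∀ p j : ℕ, p.Prime → ‖c (p ^ j)‖ ≤ (j + 1) * √(p : ℝ) ^ j)
    (he : ∀ p, ‖e p‖ ≤ 1) :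
    ∃ μ : ℕ → ℂ, NInv c μ := by
  have hmb : ∀ p j : ℕ, p.Prime → ‖mm e c (p ^ j)‖ ≤ (j + 1) * √(p : ℝ) ^ j := by
    intro p j hp
    have hp1 : (1 : ℝ) ≤ √(p : ℝ) := by
      rw [Real.one_le_sqrt]
      exact_mod_cast hp.one_lt.le
    rw [mm_pow e c hp]
    rcases j with _ | _ | _ | j
    · simp [g]
    · simp only [g, zero_add, one_ne_zero, if_false, if_true, norm_neg, pow_one, Nat.cast_one]
      have := hcb p 1 hp
      rw [pow_one, pow_one, Nat.cast_one] at this
      exact this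
    · have h2 := Real.sq_sqrt (Nat.cast_nonneg (α := ℝ) p)
      have h3 : (0 : ℝ) ≤ p := Nat.cast_nonneg p
      have h4 : g e c p (0 + 1 + 1) = e p * p := by simp [g]
      rw [h4, norm_mul, Complex.norm_natCast]
      have h5 := mul_le_mul_of_nonneg_right (he p) h3
      push_cast
      have h6 : √(p : ℝ) ^ (0 + 1 + 1) = p := h2
      rw [h6]
      linarith
    · have h4 : g e c p (j + 1 + 1 + 1) = 0 := by simp [g]
      rw [h4, norm_zero]
      positivity
  have hbd : ∀ f : ℕ → ℂ, f 1 = 1 → (∀ a b : ℕ, Nat.Coprime a b → f (a * b) = f a * f b) →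
      (∀ p j : ℕ, p.Prime → ‖f (p ^ j)‖ ≤ (j + 1) * √(p : ℝ) ^ j) →
      ∀ n : ℕ, 1 ≤ n → ‖f n‖ ≤ n.divisors.card * Real.sqrt n := by
    intro f h1 h2 h3 n hn
    have h4 := W612.CY.mult_bound (f := fun n => ‖f n‖) (by simp [h1])
      (fun a b h => by simp only [h2 a b h, norm_mul])
      (fun p j hp => by
        have := h3 p j hp
        rwa [abs_norm]) n hn
    rwa [abs_norm] at h4
  refine ⟨mm e c, c0, mm_one e c, ?_, hbd c c1 cm hcb,
    hbd (mm e c) (mm_one e c) (fun a b h => mm_mul e c h) hmb⟩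
  let C : ArithmeticFunction ℂ := ⟨c, c0⟩
  let M : ArithmeticFunction ℂ := ⟨mm e c, by simp [mm]⟩
  have hC : C.IsMultiplicative := ⟨c1, fun {m n} h => cm m n h⟩
  have hM : M.IsMultiplicative := ⟨mm_one e c, fun {m n} h => mm_mul e c h⟩
  have hMC : M * C = 1 := by
    rw [ArithmeticFunction.IsMultiplicative.eq_iff_eq_on_prime_powers _ (hM.mul hC) _
      ArithmeticFunction.isMultiplicative_one]
    intro p i hp
    rw [ArithmeticFunction.mul_apply, Nat.sum_divisorsAntidiagonal (fun x y => M x * C y),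
      Nat.sum_divisors_prime_pow hp]
    have hterm : ∀ x ∈ Finset.range (i + 1), M (p ^ x) * C (p ^ i / p ^ x)
        = g e c p x * c (p ^ (i - x)) := by
      intro x hx
      rw [Finset.mem_range] at hx
      rw [Nat.pow_div (by omega) hp.pos]
      show mm e c (p ^ x) * c (p ^ (i - x)) = _
      rw [mm_pow e c hp]
    rw [Finset.sum_congr rfl hterm]
    rcases i with _ | _ | i
    · simp [g, c1]
    · rw [Finset.sum_range_succ, Finset.sum_range_one]
      have : (p : ℕ) ^ (0 + 1) ≠ 1 := by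
        rw [zero_add, pow_one]; exact hp.one_lt.ne'
      rw [ArithmeticFunction.one_apply_ne this]
      simp [g, c1]
    · rw [Finset.sum_range_succ', Finset.sum_range_succ', Finset.sum_range_succ']
      have hz : ∑ k ∈ Finset.range i, g e c p (k + 1 + 1 + 1) * c (p ^ (i + 1 + 1 - (k + 1 + 1 + 1)))
          = 0 := by
        apply Finset.sum_eq_zero
        intro k _
        simp [g]
      have hne : p ^ (i + 1 + 1) ≠ 1 := by
        intro h
        have := (Nat.pow_eq_one.1 h).resolve_right (by omega)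
        exact hp.one_lt.ne' this
      rw [hz, ArithmeticFunction.one_apply_ne hne]
      have h3 := cp p i hp
      simp only [g, zero_add, one_ne_zero, if_false, if_true, Nat.sub_zero,
        show i + 1 + 1 - (1 + 1) = i from by omega, show i + 1 + 1 - 1 = i + 1 from by omega]
      norm_num
      rw [show i + 1 + 1 = i + 2 from rfl, h3]
      ring
  intro k hk
  have h := congrArg (fun F : ArithmeticFunction ℂ => F k) hMC
  simp only [ArithmeticFunction.mul_apply, ArithmeticFunction.one_apply] at h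
  exact h

/-- prime powers, good case -/
theorem good_bound (P : ℝ) (hP : 0 ≤ P) (u : ℕ → ℂ) (ep : ℂ) (hep : ‖ep‖ = 1) (h0 : u 0 = 1)
    (hc : (starRingEnd ℂ) (u 1) = (starRingEnd ℂ) ep * u 1) (hb : ‖u 1‖ ≤ 2 * √P)
    (hr : ∀ j, u (j + 2) = u 1 * u (j + 1) - ep * P * u j) :
    ∀ j : ℕ, ‖u j‖ ≤ (j + 1) * √P ^ j := by
  obtain ⟨s, hs⟩ : ∃ s : ℂ, s ^ 2 = ep := ⟨ep ^ ((1 : ℂ) / 2), by
    rw [← Complex.cpow_nat_mul]
    norm_num⟩
  have hsn : ‖s‖ = 1 := by
    have h1 : ‖s‖ ^ 2 = 1 := by rw [← norm_pow, hs, hep]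
    have h2 := norm_nonneg s
    nlinarith
  have hs0 : s ≠ 0 := by
    intro h
    rw [h, norm_zero] at hsn
    exact zero_ne_one hsn
  have hss : (starRingEnd ℂ) s * s = 1 := by
    rw [Complex.conj_mul', hsn]
    norm_num
  -- the real number x
  set xc : ℂ := (starRingEnd ℂ) s * u 1 with hxc
  have hxr : (starRingEnd ℂ) xc = xc := by
    rw [hxc, map_mul, Complex.conj_conj, hc, ← hs, map_pow]
    linear_combination ((starRingEnd ℂ) s * u 1) * hss
  obtain ⟨x, hx⟩ := Complex.conj_eq_iff_real.1 hxr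
  have hu1 : u 1 = s * x := by
    rw [← hx, hxc]
    linear_combination (-(u 1)) * hss
  have hxb : |x| ≤ 2 * √P := by
    have h1 : ‖u 1‖ = |x| := by
      rw [hu1, norm_mul, hsn, one_mul, Complex.norm_real, Real.norm_eq_abs]
    rw [← h1]
    exact hb
  obtain ⟨t, ht0, ht1, htr⟩ : ∃ t : ℕ → ℝ, t 0 = 1 ∧ t 1 = x ∧
      ∀ j, t (j + 2) = x * t (j + 1) - P * t j := by
    let T : ℕ → ℝ × ℝ := fun n => Nat.rec (1, x) (fun _ y => (y.2, x * y.2 - P * y.1)) n
    refine ⟨fun n => (T n).1, rfl, rfl, fun j => rfl⟩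
  have hbt := W612.CY.rec_bound hP hxb ht0 ht1 htr
  have heq : ∀ j, u j = s ^ j * t j ∧ u (j + 1) = s ^ (j + 1) * t (j + 1) := by
    intro j
    induction j with
    | zero =>
      refine ⟨by rw [h0, ht0]; simp, ?_⟩
      rw [zero_add, ht1, hu1]
      simp
    | succ j ih =>
      refine ⟨ih.2, ?_⟩
      rw [show j + 1 + 1 = j + 2 from rfl, hr j, ih.1, ih.2, htr j, hu1, ← hs]
      push_cast
      ring
  intro j
  rw [(heq j).1, norm_mul, norm_pow, hsn, one_pow, one_mul, Complex.norm_real, Real.norm_eq_abs]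
  exact hbt j

theorem n_coef : N_COEF := by
  intro m hm N _ η f w hf
  set c : ℕ → ℂ := fun n => cf f n / (n : ℂ) ^ (m - 1) with hcdef
  have hcn : ∀ n, c n = cf f n / (n : ℂ) ^ (m - 1) := fun n => rfl
  have c0 : c 0 = 0 := by
    rw [hcn]
    unfold cf
    rw [coeff_zeroC, zero_div]
  have c1 : c 1 = 1 := by
    rw [hcn, hf.one]
    simp
  have cm : ∀ a b : ℕ, Nat.Coprime a b → c (a * b) = c a * c b := by
    intro a b h
    rw [hcn, hcn, hcn, hf.mul a b h, Nat.cast_mul, mul_pow, mul_div_mul_comm]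
  have cp : ∀ p j : ℕ, p.Prime → c (p ^ (j + 2)) = c p * c (p ^ (j + 1)) -
      η (p : ZMod N) * p * c (p ^ j) := by
    intro p j hp
    have hp0 : (p : ℂ) ≠ 0 := by exact_mod_cast hp.ne_zero
    rw [hcn, hcn, hcn, hcn, hf.pow p j hp]
    push_cast
    obtain ⟨l, rfl⟩ : ∃ l, m = l + 1 := ⟨m - 1, by omega⟩
    simp only [Nat.add_sub_cancel, show 2 * (l + 1) - 1 = 2 * l + 1 from by omega]
    rw [← pow_mul, ← pow_mul, ← pow_mul]
    have e1 : (p : ℂ) ^ ((j + 2) * l) = (p : ℂ) ^ l * (p : ℂ) ^ ((j + 1) * l) := by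
      rw [← pow_add]; congr 1; ring
    have e2 : (p : ℂ) ^ ((j + 2) * l) = (p : ℂ) ^ (2 * l) * (p : ℂ) ^ (j * l) := by
      rw [← pow_add]; congr 1; ring
    have n1 : (p : ℂ) ^ l ≠ 0 := pow_ne_zero _ hp0
    have n2 : (p : ℂ) ^ ((j + 1) * l) ≠ 0 := pow_ne_zero _ hp0
    have n3 : (p : ℂ) ^ (2 * l) ≠ 0 := pow_ne_zero _ hp0
    have n4 : (p : ℂ) ^ (j * l) ≠ 0 := pow_ne_zero _ hp0
    rw [sub_div]
    congr 1
    · rw [e1, mul_div_mul_comm]
    · rw [e2, pow_succ]
      field_simp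
  have he : ∀ p : ℕ, ‖η (p : ZMod N)‖ ≤ 1 := fun p => η.norm_le_one _
  -- size
  have hsz : ∀ p : ℕ, p.Prime → (p : ℝ) ^ ((2 * m - 1 : ℝ) / 2) = √(p : ℝ) * (p : ℝ) ^ (m - 1) := by
    intro p hp
    have hp0 : (0 : ℝ) < p := by exact_mod_cast hp.pos
    rw [Real.sqrt_eq_rpow, ← Real.rpow_natCast, ← Real.rpow_add hp0]
    congr 1
    rw [Nat.cast_sub hm]
    push_cast
    ring
  have hcnorm : ∀ p : ℕ, p.Prime → ∀ a : ℝ, ‖cf f p‖ ≤ a * (√(p : ℝ) * (p : ℝ) ^ (m - 1)) →
      ‖c p‖ ≤ a * √(p : ℝ) := by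
    intro p hp a h
    have hp0 : (0 : ℝ) < p := by exact_mod_cast hp.pos
    rw [hcn, norm_div, norm_pow, Complex.norm_natCast, div_le_iff₀ (by positivity)]
    linarith
  have hcb : ∀ p j : ℕ, p.Prime → ‖c (p ^ j)‖ ≤ (j + 1) * √(p : ℝ) ^ j := by
    intro p j hp
    have hp1 : (1 : ℝ) ≤ √(p : ℝ) := by
      rw [Real.one_le_sqrt]
      exact_mod_cast hp.one_lt.le
    by_cases hN : p ∣ N
    · have hη : η (p : ZMod N) = 0 := by
        apply MulChar.map_nonunit
        rw [ZMod.isUnit_iff_coprime]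
        intro h
        have := Nat.Coprime.eq_one_of_dvd h hN
        exact hp.one_lt.ne' this
      have h1 : ∀ i, c (p ^ i) = c p ^ i := by
        intro i
        induction i with
        | zero => rw [pow_zero, pow_zero, c1]
        | succ i ih =>
          rcases i with _ | i
          · rw [zero_add, pow_one, pow_one]
          · rw [cp p i hp, hη, zero_mul, zero_mul, sub_zero, ih, ← pow_succ']
      have hb := hf.bad p hp hN
      rw [hsz p hp] at hb
      have hb2 := hcnorm p hp 1 (by linarith)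
      rw [one_mul] at hb2
      rw [h1, norm_pow]
      have h2 : ‖c p‖ ^ j ≤ √(p : ℝ) ^ j := pow_le_pow_left₀ (norm_nonneg _) hb2 j
      have h4 : (0 : ℝ) ≤ j := Nat.cast_nonneg j
      have h5 : 0 ≤ √(p : ℝ) ^ j := by positivity
      nlinarith
    · have hu : ‖η (p : ZMod N)‖ = 1 := by
        have hun : IsUnit (p : ZMod N) := by
          rw [ZMod.isUnit_iff_coprime]
          exact (Nat.Prime.coprime_iff_not_dvd hp).2 hN
        obtain ⟨v, hv⟩ := hun
        rw [← hv]
        exact η.unit_norm_eq_one v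
      have hb := hf.good p hp hN
      rw [hsz p hp] at hb
      have hb2 := hcnorm p hp 2 hb
      refine good_bound (p : ℝ) (Nat.cast_nonneg p) (fun i => c (p ^ i)) (η (p : ZMod N)) hu
        ?_ ?_ ?_ ?_ j
      · simp [c1]
      · simp only [pow_one]
        rw [hcn, map_div₀, hf.conj p hp hN, map_pow, Complex.conj_natCast, mul_div_assoc]
      · simp only [pow_one]
        exact hb2
      · intro i
        simp only [pow_one]
        rw [cp p i hp]
        push_cast
        ring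
  exact gen c (fun p => η (p : ZMod N)) c0 c1 cm cp hcb he

end Pool.Agent.W804.CY
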